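import Pool.Agent.Lib.H46R.Fin3

/-!
# MP_5f89c9_gt: every embedding of an intrinsically knotted graph has two odd links

For every finite simple intrinsically knotted graph `G` and every polygonal embedding `f` of `G` in
`ℝ³` there are directions in general position, and for each of them at least two different unordered
pairs of disjoint cycles have odd linking number; or no pair has odd linking number and `G` has no
minor in the Petersen family; or `G` is not 3-connected and an intrinsically knotted graph with fewer
vertices has no minor in the Petersen family. The last two alternatives are excluded by the theorem of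
Robertson, Seymour and Thomas (graphs without a minor in the Petersen family have flat embeddings, in
which every cycle is unknotted), which the problem lists as known. For 3-connected graphs with a
minor in the Petersen family the first alternative holds without that theorem.

Definitions: `Pool/Agent/Lib/H46K/Defs.lean` (`P3`, `Unknot`, `SpatialGraph`, `IsIK`, `lk2`,
`Generic`, `ThreeConn`), `Pool/Agent/Lib/H97G/D0.lean`, `Fin.lean` (`HasOdd`, `OddPair`, `SamePair`,
`TwoOdd`) and `Pool/Agent/Lib/H46R/Defs.lean` (`IsMinor`, `HasPetersenMinor`). Paper proofs:
`Pool/Agent/Lib/H46K/PROOF.md`, `Pool/Agent/Lib/H97G/PROOF.md`, docstrings in `Pool/Agent/Lib/H46R`.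
-/

open H46K H97G H46R

namespace Pool.Agent.Results.MP_5f89c9_gt.TwoOddLinks

/-- Every embedding of an intrinsically knotted graph has two different links with odd linking
number, unless there is no odd link at all and the graph has no Petersen family minor, or the graph
is not 3-connected and a smaller intrinsically knotted graph has no Petersen family minor. -/
theorem result {V : Type} [Fintype V] [DecidableEq V] (G : SimpleGraph V) (hIK : IsIK G)
    (f : SpatialGraph G) :
    (∃ d, Generic f d) ∧ ∀ d, Generic f d → TwoOdd f d ∨
      (¬ HasOdd f d ∧ ¬ HasPetersenMinor G) ∨
      (¬ ThreeConn G ∧ ∃ (W : Type) (_ : Fintype W) (H : SimpleGraph W),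
        Fintype.card W < Fintype.card V ∧ IsIK H ∧ ¬ HasPetersenMinor H) :=
  H46R.final3 G hIK f

end Pool.Agent.Results.MP_5f89c9_gt.TwoOddLinks
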